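import Pool.Agent.H677_SC.Basic

set_option autoImplicit false

open Finset

namespace Pool.Agent.Results.MP_fc29f1_nt.FalseAtSeven

/-- The generalised binomial coefficient `a (a - 1) ⋯ (a - k + 1) / k!`. -/
def gb (a : ℚ) (k : ℕ) : ℚ := (∏ i ∈ range k, (a - i)) / (k.factorial : ℚ)

/-- `S_1`. -/
def S1 (p : ℕ) : ℚ := ∑ k ∈ range p, gb (-1 / 2) k * gb (-1 / 3) k * (-3) ^ k

/-- `S_2`. -/
def S2 (p : ℕ) : ℚ := ∑ k ∈ range p, gb (-1 / 2) k * gb (-1 / 3) k / (-27) ^ k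

/-- `S_3`. -/
def S3 (p : ℕ) : ℚ := ∑ k ∈ range p, gb (-1 / 2) k * gb (-2 / 3) k / (-4) ^ k

/-- `S_4`. -/
def S4 (p : ℕ) : ℚ := ∑ k ∈ range p, gb (-1 / 2) k * gb (-1 / 3) k / 5 ^ k

/-- `S_5`. -/
def S5 (p : ℕ) : ℚ := ∑ k ∈ range p, gb (-1 / 2) k * gb (-1 / 3) k * 2 ^ k

/-- `u ≡ v` modulo `p ^ m` for rationals with denominator prime to `p`: the difference is
`p ^ m` times a rational number whose denominator is not divisible by `p`. -/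
def Congr (p m : ℕ) (u v : ℚ) : Prop := ∃ r : ℚ, ¬ p ∣ r.den ∧ u - v = (p : ℚ) ^ m * r

/-- The statements (a) and (b) of Q1 for the prime `p`. -/
def Assertion (p : ℕ) : Prop :=
  (p % 3 = 1 → ∀ A B : ℤ, (p : ℤ) = A ^ 2 + 3 * B ^ 2 → 3 ∣ A - 1 →
    Congr p 2 (S1 p) (S2 p) ∧ Congr p 2 (S2 p) (S3 p) ∧
    Congr p 2 (S3 p) (jacobiSym p 5 * S4 p) ∧
    Congr p 2 (jacobiSym p 5 * S4 p) (jacobiSym (-1) p * S5 p) ∧
    Congr p 2 (jacobiSym (-1) p * S5 p) (2 * A - p / (2 * A))) ∧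
  (p % 3 = 2 → Congr p 1 (S1 p) 0 ∧ Congr p 1 (S2 p) 0 ∧ Congr p 1 (S3 p) 0 ∧
    Congr p 1 (S4 p) 0 ∧ Congr p 1 (S5 p) 0)

/-- Q1 as posed is false: (a) fails for `p = 7 = (-2) ^ 2 + 3 * 1 ^ 2`. -/
theorem result : ¬ ∀ p : ℕ, p.Prime → 5 < p → Assertion p := by
  intro h
  obtain ⟨r, hr, he⟩ := ((h 7 (by norm_num) (by norm_num)).1 (by norm_num) (-2) 1 (by norm_num)
    (by norm_num)).1
  have hS : S1 7 - S2 7 = 173123216000735 / 13556617751088 := by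
    decide +kernel
  have key := Pool.Agent.H677_SC.dvd_of_den (p := 7) (m := 2) (by norm_num) hr
    (d := 13556617751088)
    (N := 173123216000735) (by
      rw [← he, hS]
      norm_num)
  revert key
  norm_num

end Pool.Agent.Results.MP_fc29f1_nt.FalseAtSeven
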